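import Mathlib
import Pool.Agent.Helper17.Revers

set_option autoImplicit false

namespace Pool.Agent.Results.MP_c38931_co.InvertedTransitive

universe u

/-- For every `lam ≥ 1` there is `K` such that every symmetric `(v, k, lam)` design having a
point-transitive automorphism group `A` and an automorphism `τ` with `τ σ τ⁻¹ = σ⁻¹` for all
`σ ∈ A` has `v ≤ K`. -/
theorem result (lam : ℕ) (hlam : 1 ≤ lam) : ∃ K : ℕ, ∀ (X : Type u) [Fintype X] [DecidableEq X]
    (blocks : Finset (Finset X)) (k : ℕ) (A : Subgroup (Equiv.Perm X)) (τ : Equiv.Perm X),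
    blocks.card = Fintype.card X →
    (∀ b ∈ blocks, b.card = k) →
    (∀ x y : X, x ≠ y → (blocks.filter (fun b => x ∈ b ∧ y ∈ b)).card = lam) →
    (∀ σ ∈ A, ∀ b ∈ blocks, b.image σ ∈ blocks) →
    (∀ b ∈ blocks, b.image τ ∈ blocks) →
    (∀ x y : X, ∃ σ ∈ A, σ x = y) →
    (∀ σ ∈ A, τ * σ * τ⁻¹ = σ⁻¹) →
    Fintype.card X ≤ K := by
  obtain ⟨K, hK⟩ := Pool.Agent.Helper17.Revers.inverted_main.{u} lam hlam
  refine ⟨K, ?_⟩
  intro X _ inst blocks k A τ hv hk hl hA hτ tA hinv
  refine hK X blocks k A τ hv hk ?_ ?_ ?_ tA hinv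
  · intro x y hxy
    rw [← hl x y hxy]
    congr 1
    ext b
    simp
  · intro σ hσ b hb
    exact Pool.Agent.Helper17.Bireg.image_inst σ b blocks (hA σ hσ b hb)
  · intro b hb
    exact Pool.Agent.Helper17.Bireg.image_inst τ b blocks (hτ b hb)

end Pool.Agent.Results.MP_c38931_co.InvertedTransitive
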