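import Mathlib
import Pool.Agent.Helper17.NormalAbelian

set_option autoImplicit false

namespace Pool.Agent.Results.MP_c38931_co.NormalDiffAbelian

universe u

/-- A conjugation-invariant `(v, k, lam)` difference set `D` in a finite group `G` that has a
noncentral abelian normal subgroup `N` satisfies `k < 100 * lam ^ 4`. -/
theorem result (G : Type u) [Group G] [Fintype G] [DecidableEq G] (D : Finset G) (lam : ℕ)
    (hlam : 1 ≤ lam)
    (hrep : ∀ g : G, g ≠ 1 → ((D ×ˢ D).filter (fun p => p.1 * p.2⁻¹ = g)).card = lam)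
    (hconj : ∀ g : G, ∀ d ∈ D, g * d * g⁻¹ ∈ D)
    (N : Subgroup G) (hNn : N.Normal) (hNab : ∀ a ∈ N, ∀ b ∈ N, a * b = b * a)
    (hNc : ¬ N ≤ Subgroup.center G) :
    D.card < 100 * lam ^ 4 := by
  haveI := hNn
  refine Pool.Agent.Helper17.NormalDS.final (D := D) (lam := lam) ⟨?_, hconj⟩ N hNab hlam hNc
  intro g hg
  rw [← hrep g hg]
  congr 1
  ext p
  simp

end Pool.Agent.Results.MP_c38931_co.NormalDiffAbelian
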